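import Mathlib

set_option autoImplicit false

namespace Pool.Agent.Results.MP_8f56b8_lc.Lower

open Finset

/-- `r` is the rank function of a matroid on the finite set `α` (rank axioms). -/
def IsRank {α : Type} [DecidableEq α] (r : Finset α → ℕ) : Prop :=
  (∀ A, r A ≤ A.card) ∧ (∀ A B, A ⊆ B → r A ≤ r B) ∧ ∀ A B, r (A ∪ B) + r (A ∩ B) ≤ r A + r B

/-- The objective of the matroid median problem. -/
def Φ {α : Type} [DecidableEq α] {k : ℕ} (r : Finset α → ℕ) (F : Fin k → Finset α)
    (H : Finset α) : ℤ := 2 * ∑ i, (r (F i ∪ H) : ℤ) - k * r H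

/-- Deterministic oracle algorithms: output a set, or ask for a rank and go on accordingly. -/
inductive Alg (α : Type) where
  | out : Finset α → Alg α
  | ask : Finset α → (ℕ → Alg α) → Alg α

/-- The output of the algorithm when the oracle is `r`. -/
def Alg.res {α : Type} (r : Finset α → ℕ) : Alg α → Finset α
  | .out H => H
  | .ask A k => (k (r A)).res r

/-- The number of oracle calls when the oracle is `r`. -/
def Alg.calls {α : Type} (r : Finset α → ℕ) : Alg α → ℕ
  | .out _ => 0
  | .ask A k => (k (r A)).calls r + 1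

lemma trace {α : Type} [DecidableEq α] (r₀ : Finset α → ℕ) (T : Alg α) :
    ∃ Q : Finset (Finset α), Q.card ≤ T.calls r₀ ∧
      ∀ r, (∀ A ∈ Q, r A = r₀ A) → T.res r = T.res r₀ := by
  induction T with
  | out H => exact ⟨∅, le_rfl, fun _ _ => rfl⟩
  | ask A k ih =>
    obtain ⟨Q, h1, h2⟩ := ih (r₀ A)
    refine ⟨insert A Q, (card_insert_le _ _).trans (Nat.succ_le_succ h1), fun r h => ?_⟩
    rw [Alg.res, Alg.res, h A (mem_insert_self _ _)]
    exact h2 r fun B hB => h B (mem_insert_of_mem hB)

lemma sd {α : Type} [DecidableEq α] (A B X Y : Finset α) :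
    ((A ∪ B) \ (X ∪ Y)).card + ((A ∩ B) \ (X ∩ Y)).card ≤ (A \ X).card + (B \ Y).card := by
  rw [← card_union_add_card_inter, ← card_union_add_card_inter (A \ X)]
  exact add_le_add (card_le_card (by grind)) (card_le_card (by grind))

lemma sd2 {α : Type} [DecidableEq α] (A B X Y : Finset α) :
    (A ∩ B).card ≤ (X ∩ Y).card + (A \ X).card + (B \ Y).card :=
  (card_le_card (t := X ∩ Y ∪ A \ X ∪ B \ Y) (by grind)).trans
    ((card_union_le _ _).trans (add_le_add_left (card_union_le _ _) _))

variable (t : ℕ)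

abbrev S := (Bool × Fin (4 * t + 2)) ⊕ (Fin (4 * t + 1) × Fin 64)

def F (b : Bool) : Finset (S t) := univ.image fun j => .inl (b, j)

variable {t}

def H (g : Fin (4 * t + 1) → Fin 64) : Finset (S t) := univ.image fun j => .inr (j, g j)

lemma cF (b : Bool) : (F t b).card = 4 * t + 2 := by
  rw [F, card_image_of_injective _ fun _ _ h => by simpa using h]; simp

lemma cH (g : Fin (4 * t + 1) → Fin 64) : (H g).card = 4 * t + 1 := by
  rw [H, card_image_of_injective _ fun _ _ h => by simpa using (by simpa using h : _ ∧ _).1]; simp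

lemma FF : F t false ∩ F t true = ∅ := by ext; simp [F]; grind

def r0 (A : Finset (S t)) : ℕ := min A.card (6 * t + 3)

def rk (g : Fin (4 * t + 1) → Fin 64) (A : Finset (S t)) : ℕ := min (r0 A)
  (5 * t + 2 + min (A \ (F t false ∪ H g)).card (A \ (F t true ∪ H g)).card)

lemma r0_rank : IsRank (r0 (t := t)) := by
  refine ⟨fun A => min_le_left _ _, fun A B h => min_le_min_right _ (card_le_card h), fun A B => ?_⟩
  have := card_union_add_card_inter A B
  have := card_le_card (inter_subset_left (s₁ := A) (s₂ := B))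
  have := card_le_card (inter_subset_right (s₁ := A) (s₂ := B))
  unfold r0
  omega

lemma rk_rank (g : Fin (4 * t + 1) → Fin 64) : IsRank (rk g) := by
  refine ⟨fun A => (min_le_left _ _).trans (min_le_left _ _), fun A B h => min_le_min
    (r0_rank.2.1 A B h) (add_le_add_right (min_le_min (card_le_card (sdiff_subset_sdiff h le_rfl))
      (card_le_card (sdiff_subset_sdiff h le_rfl))) _), fun A B => ?_⟩
  obtain ⟨Y, hY⟩ : ∃ Y, Y = F t false ∪ H g := ⟨_, rfl⟩
  obtain ⟨Z, hZ⟩ : ∃ Y, Y = F t true ∪ H g := ⟨_, rfl⟩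
  have c : (Y ∩ Z).card = 4 * t + 1 := by
    rw [hY, hZ, ← inter_union_distrib_right, FF, empty_union, cH]
  have le : ∀ C, rk g C ≤ C.card ∧ rk g C ≤ 6 * t + 3 ∧ rk g C ≤ 5 * t + 2 + (C \ Y).card ∧
      rk g C ≤ 5 * t + 2 + (C \ Z).card := fun C => by rw [hY, hZ]; unfold rk r0; omega
  have eq : ∀ C, rk g C = C.card ∨ rk g C = 6 * t + 3 ∨ rk g C = 5 * t + 2 + (C \ Y).card ∨
      rk g C = 5 * t + 2 + (C \ Z).card := fun C => by rw [hY, hZ]; unfold rk r0; omega
  have := card_union_add_card_inter A B
  have := card_le_card (inter_subset_left (s₁ := A) (s₂ := B))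
  have := card_le_card (inter_subset_right (s₁ := A) (s₂ := B))
  have m := fun X : Finset (S t) => And.intro
    (card_le_card (sdiff_subset_sdiff (inter_subset_left (s₁ := A) (s₂ := B)) (le_refl X)))
    (card_le_card (sdiff_subset_sdiff (inter_subset_right (s₁ := A) (s₂ := B)) (le_refl X)))
  have a1 := sd A B ∅ Y
  have a2 := sd A B ∅ Z
  have a3 := sd A B Y ∅
  have a4 := sd A B Z ∅
  have a5 := sd A B Y Y
  have a6 := sd A B Z Z
  have a7 := sd2 A B Y Z
  have a8 := sd2 A B Z Y
  rw [inter_comm Z] at a8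
  simp only [empty_union, union_empty, empty_inter, inter_empty, sdiff_empty, union_self,
    inter_self] at a1 a2 a3 a4 a5 a6
  have := m Y
  have := m Z
  have := le (A ∪ B)
  have := le (A ∩ B)
  rcases eq A with h | h | h | h <;> rcases eq B with h | h | h | h <;> omega

lemma cover (B : Finset (S t)) (hB : B.card = t + 1) :
    #{g : Fin (4 * t + 1) → Fin 64 | B ⊆ H g} ≤ 64 ^ (3 * t) := by
  rcases eq_empty_or_nonempty {g : Fin (4 * t + 1) → Fin 64 | B ⊆ H g} with h | ⟨g₀, h⟩
  · simp [h]
  · let D : Finset (Fin (4 * t + 1)) := {j | .inr (j, g₀ j) ∈ B}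
    have hD : t + 1 ≤ D.card := by
      refine hB ▸ (card_le_card (t := D.image fun j => .inr (j, g₀ j)) fun x hx => ?_).trans
        card_image_le
      obtain ⟨j, _, rfl⟩ := mem_image.1 ((mem_filter.1 h).2 hx)
      exact mem_image_of_mem _ (mem_filter.2 ⟨mem_univ _, hx⟩)
    refine (card_le_card (t := Fintype.piFinset fun j => if j ∈ D then {g₀ j} else univ)
      fun g hg => Fintype.mem_piFinset.2 fun j => ?_).trans ?_
    · split_ifs with c
      · obtain ⟨i, _, e⟩ := mem_image.1 ((mem_filter.1 hg).2 (mem_filter.1 c).2)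
        obtain ⟨rfl, e⟩ : _ ∧ _ := by simpa using e
        simpa using e
      · exact mem_univ _
    · simp only [Fintype.card_piFinset, apply_ite Finset.card, card_singleton, card_univ,
        Fintype.card_fin, prod_ite, prod_const, one_pow, one_mul]
      refine Nat.pow_le_pow_right (by norm_num) ?_
      have := card_filter_add_card_filter_not (s := univ) (fun j => j ∈ D)
      simp only [filter_mem_eq_inter, univ_inter, card_univ, Fintype.card_fin] at this
      omega

lemma few (A : Finset (S t)) :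
    #{g : Fin (4 * t + 1) → Fin 64 | rk g A ≠ r0 A} ≤ 2 ^ (5 * t + 1) * 64 ^ (3 * t) := by
  let A' := A \ (F t false ∪ F t true)
  have key : ∀ g, rk g A ≠ r0 A → A'.card ≤ 5 * t + 1 ∧ t + 1 ≤ (A' ∩ H g).card := fun g hg => by
    obtain ⟨b, hb⟩ : ∃ b, 5 * t + 2 + (A \ (F t b ∪ H g)).card < r0 A := by
      by_contra c
      push Not at c
      have := c false
      have := c true
      unfold rk at hg
      omega
    have e1 := (card_le_card (s := A') (t := A \ (F t b ∪ H g) ∪ H g)
      (by cases b <;> grind)).trans (card_union_le _ _)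
    have d : ∀ x ∈ H g, x ∉ F t false ∪ F t true := by simp [H, F]
    have e2 := (card_le_card (s := A) (t := A \ (F t b ∪ H g) ∪ F t b ∪ A' ∩ H g)
      (by grind)).trans ((card_union_le _ _).trans (add_le_add_left (card_union_le _ _) _))
    rw [cH] at e1
    rw [cF] at e2
    unfold r0 at hb
    omega
  rcases eq_empty_or_nonempty {g : Fin (4 * t + 1) → Fin 64 | rk g A ≠ r0 A} with h | ⟨g₀, h⟩
  · simp [h]
  refine (card_le_card (t := (powersetCard (t + 1) A').biUnion fun B => {g | B ⊆ H g})
    fun g hg => ?_).trans ((card_biUnion_le_card_mul _ _ _ fun B hB =>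
      cover B (mem_powersetCard.1 hB).2).trans (Nat.mul_le_mul_right _ ?_))
  · obtain ⟨B, h1, h2⟩ := exists_subset_card_eq (key g (mem_filter.1 hg).2).2
    exact mem_biUnion.2 ⟨B, mem_powersetCard.2 ⟨h1.trans inter_subset_left, h2⟩,
      mem_filter.2 ⟨mem_univ _, h1.trans inter_subset_right⟩⟩
  · rw [card_powersetCard]
    exact (Nat.choose_le_two_pow _ _).trans
      (Nat.pow_le_pow_right (by norm_num) (key g₀ (mem_filter.1 h).2).1)

/-- For every `t` there are a ground set with `264 t + 68` elements and three subsets such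
that every oracle algorithm that is correct on all matroids makes at least `2 ^ t` oracle calls on
some matroid. -/
theorem result (t : ℕ) : ∃ (α : Type) (_ : Fintype α) (_ : DecidableEq α) (F : Fin 3 → Finset α),
    Fintype.card α = 264 * t + 68 ∧ ∀ T : Alg α,
      (∀ r, IsRank r → ∀ H, Φ r F (T.res r) ≤ Φ r F H) → ∃ r, IsRank r ∧ 2 ^ t ≤ T.calls r := by
  refine ⟨S t, inferInstance, inferInstance, ![F t false, F t true, ∅], by simp; ring,
    fun T hT => ⟨r0, r0_rank, ?_⟩⟩
  by_contra c
  obtain ⟨Q, h1, h2⟩ := trace r0 T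
  set K := T.res r0
  let Q' := insert K (insert (F t false ∪ K) (insert (F t true ∪ K) Q))
  have cQ : Q'.card ≤ 3 * 2 ^ t := by
    have := card_insert_le K (insert (F t false ∪ K) (insert (F t true ∪ K) Q))
    have := card_insert_le (F t false ∪ K) (insert (F t true ∪ K) Q)
    have := card_insert_le (F t true ∪ K) Q
    have := Nat.one_le_two_pow (n := t)
    simp only [Q']
    omega
  obtain ⟨g, _, hg⟩ := exists_mem_notMem_of_card_lt_card (t := univ)
    (s := Q'.biUnion fun A => {g : Fin (4 * t + 1) → Fin 64 | rk g A ≠ r0 A}) (by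
      refine ((card_biUnion_le_card_mul _ _ _ fun A _ => few A).trans
        (Nat.mul_le_mul_right _ cQ)).trans_lt ?_
      have e : (64 : ℕ) ^ (4 * t + 1) = 32 * 2 ^ t * (2 ^ (5 * t + 1) * 64 ^ (3 * t)) := by
        rw [show (64 : ℕ) = 2 ^ 6 from rfl, show (32 : ℕ) = 2 ^ 5 from rfl]
        simp only [← pow_mul, ← pow_add]
        congr 1; ring
      simp only [card_univ, Fintype.card_pi, Fintype.card_fin, prod_const, e]
      gcongr
      norm_num)
  have a : ∀ A ∈ Q', rk g A = r0 A := fun A hA => by_contra fun c =>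
    hg (mem_biUnion.2 ⟨A, hA, mem_filter.2 ⟨mem_univ _, c⟩⟩)
  have := hT _ (rk_rank g) (H g)
  rw [h2 _ fun A hA => a A (by simp [Q', hA])] at this
  simp only [Φ, Fin.sum_univ_three, Matrix.cons_val, empty_union, a K (by simp [Q']),
    a (F t false ∪ K) (by simp [Q']), a (F t true ∪ K) (by simp [Q'])] at this
  have b1 := card_union_add_card_inter (F t false ∪ K) (F t true ∪ K)
  have b2 := card_le_card (s := F t false ∪ F t true) (t := F t false ∪ K ∪ (F t true ∪ K))
    (by grind)
  have b3 := card_union_add_card_inter (F t false) (F t true)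
  rw [← inter_union_distrib_right, FF, empty_union] at b1
  have b4 := fun b => And.intro (card_le_card (subset_union_left (s₁ := F t b) (s₂ := K)))
    (card_le_card (subset_union_right (s₁ := F t b) (s₂ := K)))
  have b5 := b4 false
  have b6 := b4 true
  simp only [FF, cF, card_empty] at b3 b5 b6
  simp only [rk, r0, sdiff_self, cH, bot_eq_empty, card_empty] at this
  omega

end Pool.Agent.Results.MP_8f56b8_lc.Lower
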